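import Pool.Agent.H3.L17.BSD
import Pool.Graph.R_pool_sql_team_seeded_63374d34.N969.Den.Root17
import Pool.Graph.R_seed8.Y948.CQ.C2

/-!
# The rank form of the conjecture of Birch and Swinnerton-Dyer for one fifth of all quadratic
# twists of a curve of conductor `17`

`E : y² = x³ - 91 x - 330 = (x + 5) (x + 6) (x - 11)` is an elliptic curve of conductor `17` without
complex multiplication; all rational isogenies in its isogeny class are of `2`-power degree. All
quadratic twists
`E_d : y² = x³ - 91 d² x - 330 d³` are considered, `d` any squarefree integer, positive or negative,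
without any condition on the prime factors of `d`. The root number of `E_d` is `+ 1` if and only if
`RootPlus d`, and this happens for exactly one of `d` and `-d`.

Let `D` be the discriminant of `ℚ(√d)`. `D` is the product of the prime discriminants `st D p`,
`p ∣ D`. Let `R` be the matrix over `F₂` whose entry at `(p, q)`, `p ≠ q`, is the Kronecker symbol
`(st D q / p)`, written additively, with row sums zero, let `N` be the diagonal matrix of the
symbols `(17 / p)`, and let `A` be the diagonal matrix of the signs of the prime discriminants.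
`d` is good if the symmetric matrix `[[N, R], [Rᵀ, A]]` is invertible (if `17 ∣ d`, the row and the
column of the first block which belong to `17` are removed). This is the analogue of Monsky's matrix.

If `d ≠ 1` is good with root number `+ 1`, then `L(E_d, s)` is entire with `L(E_d, 1) ≠ 0`, and
`E_d(ℚ)` has rank zero. The proportion of these `d` among all squarefree integers is exactly `c / 2`,
and among the squarefree integers with root number `+ 1` it is `c = ∏_{i ≥ 0} (1 - 2^{-(2 i + 1)})`,
`0.4194 < c < 0.4195`. The same is true if the twists are ordered by the discriminants of `ℚ(√d)`.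

The Lean proof is complete (modular symbols and ternary theta series of level `17`, a formula of Gross
type for the central values and its `2`-adic valuation, two-descent, and the distribution of the
Monsky matrices). The modular side and the distribution were left unassembled by an earlier run
(`Pool.Graph.R_pool_sql_team_seeded_63374d34`); the two-descent (`Pool.Agent.H3.L17`) is new.
-/

set_option autoImplicit false

namespace Pool.Agent.Results.MP_696deb_nt.AllTwistsConductor17

open Filter Finset
open scoped Classical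

/-- the assertion of the problem for the curve `y² = x³ + a x + b`, with the order of vanishing and
the rank both equal to `r`: the incomplete Euler product extends to an entire function `F` whose
order at `1` is `r`, and the rank of the group of the rational points is `r` -/
def RankForm (a b : ℤ) (r : ℕ) : Prop :=
  (∃ F : ℂ → ℂ, Differentiable ℂ F ∧
    (∀ s : ℂ, (3 : ℝ) / 2 < s.re →
      HasProd
        (fun p : ℕ =>
          if p.Prime ∧ ¬ ((p : ℤ) ∣ 2 * (-4 * a ^ 3 - 27 * b ^ 2)) then
            (1 - ((p : ℂ) - (Nat.card {q : ZMod p × ZMod p //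
                q.2 ^ 2 = q.1 ^ 3 + (a : ZMod p) * q.1 + (b : ZMod p)} : ℂ))
                * (p : ℂ) ^ (-s) + (p : ℂ) ^ (1 - 2 * s))⁻¹
          else 1)
        (F s)) ∧
    analyticOrderAt F 1 = (r : ℕ∞)) ∧
  Module.finrank ℤ
    (WeierstrassCurve.Affine.Point
      (WeierstrassCurve.toAffine
        ({ a₁ := 0, a₂ := 0, a₃ := 0, a₄ := (a : ℚ), a₆ := (b : ℚ) } :
          WeierstrassCurve ℚ))) = r

/-- the condition for the root number `+ 1` -/
def RootPlus (d : ℤ) : Prop := (0 < d ∧ jacobiSym d 17 = 1) ∨ (d < 0 ∧ jacobiSym d 17 ≠ 1)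

/-- the discriminant of `ℚ(√d)` -/
def disc (d : ℤ) : ℤ := if d % 4 = 1 then d else 4 * d

/-- the prime discriminants: `D` is the product of the `st D p` over the primes `p ∣ D` -/
def st (D : ℤ) (p : ℕ) : ℤ :=
  if p = 2 then (if D % 16 = 12 then -4 else if D % 32 = 8 then 8 else -8)
  else if p % 4 = 1 then p else -p

/-- the Kronecker symbol `(st D q / p)` for `p ≠ q`, written additively -/
def lg (D : ℤ) (q p : ℕ) : ZMod 2 :=
  if p = 2 then (if st D q % 8 = 1 ∨ st D q % 8 = 7 then 0 else 1)
  else (if jacobiSym (st D q) p = 1 then 0 else 1)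

/-- the matrix `R` of the Kronecker symbols, with row sums zero -/
def R (D : ℤ) (p q : ℕ) : ZMod 2 :=
  if p = q then ∑ r ∈ D.natAbs.primeFactors.erase p, lg D r p else lg D q p

/-- the sign of the prime discriminant, written additively -/
def sn (D : ℤ) (q : ℕ) : ZMod 2 := if st D q < 0 then 1 else 0

/-- the Kronecker symbol `(17 / p)`, written additively -/
def nu (p : ℕ) : ZMod 2 := if p = 2 then 0 else if jacobiSym 17 p = 1 then 0 else 1

/-- the criterion for the discriminant `D`: the symmetric matrix `[[N, R], [Rᵀ, A]]` over `F₂`,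
without the row and the column of the first block which belong to `17`, has trivial kernel -/
def Cri (D : ℤ) : Prop := ∀ x y : ℕ → ZMod 2, ((17 : ℤ) ∣ D → x 17 = 0) →
  (∀ p ∈ D.natAbs.primeFactors, p ≠ 17 →
    nu p * x p + ∑ q ∈ D.natAbs.primeFactors, R D p q * y q = 0) →
  (∀ q ∈ D.natAbs.primeFactors,
    ∑ p ∈ D.natAbs.primeFactors, R D p q * x p + sn D q * y q = 0) →
  ∀ p ∈ D.natAbs.primeFactors, x p = 0 ∧ y p = 0

/-- the criterion for the squarefree integer `d` -/
def Good (d : ℤ) : Prop := Cri (disc d)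

/-- the squarefree integers `d`, `|d| ≤ X`, with the property `P` -/
noncomputable def num (P : ℤ → Prop) (X : ℕ) : ℕ :=
  ((Icc (-(X : ℤ)) X).filter fun d => Squarefree d ∧ P d).card

/-- the squarefree integers `d`, `|disc d| ≤ X`, with the property `P` -/
noncomputable def numD (P : ℤ → Prop) (X : ℕ) : ℕ :=
  ((Icc (-(X : ℤ)) X).filter fun d => |disc d| ≤ X ∧ Squarefree d ∧ P d).card

/-- the constant `(1 - 1/2) (1 - 1/8) (1 - 1/32) ⋯` -/
noncomputable def c : ℝ := ∏' i : ℕ, (1 - (1 / 2 : ℝ) ^ (2 * i + 1))

theorem num_eq (P : ℤ → Prop) : num P = Pool.Agent.N919.BS.NS P := rfl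

theorem core_disc (d : ℤ) (hd : Squarefree d) : Pool.Agent.N919.BS.core (disc d) = d := by
  have h4 := Pool.Agent.H3.L17.mod_two hd
  unfold Pool.Agent.N919.BS.core disc
  split_ifs <;> omega

theorem numD_eq (P : ℤ → Prop) : numD P = Pool.Agent.N919.BS.NF P := by
  funext X
  unfold numD Pool.Agent.N919.BS.NF
  refine card_bij (fun d _ => disc d) ?_ ?_ ?_
  · intro d hd
    rw [mem_filter, mem_Icc] at hd ⊢
    obtain ⟨-, h1, h2, h3⟩ := hd
    rw [abs_le] at h1
    refine ⟨h1, ?_, by rw [core_disc d h2]; exact h3⟩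
    have h4 := Pool.Agent.H3.L17.mod_two h2
    unfold Pool.Agent.N919.BS.Fund disc
    by_cases c1 : d % 4 = 1
    · left
      rw [if_pos c1]
      exact ⟨h2, c1⟩
    · right
      rw [if_neg c1]
      exact ⟨d, rfl, h2, by omega⟩
  · intro d hd e he h
    rw [mem_filter] at hd he
    have := congrArg Pool.Agent.N919.BS.core h
    rwa [core_disc d hd.2.2.1, core_disc e he.2.2.1] at this
  · intro D hD
    rw [mem_filter, mem_Icc] at hD
    obtain ⟨h1, h2, h3⟩ := hD
    rcases h2 with ⟨h2, h4⟩ | ⟨m, h4, h2, h5⟩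
    · have e : disc D = D := by
        unfold disc
        rw [if_pos h4]
      refine ⟨D, ?_, e⟩
      rw [mem_filter, mem_Icc, e, abs_le]
      refine ⟨h1, h1, h2, ?_⟩
      rw [← core_disc D h2, e]
      exact h3
    · have e : disc m = D := by
        unfold disc
        rw [if_neg (by omega), h4]
      refine ⟨m, ?_, e⟩
      rw [mem_filter, mem_Icc, e, abs_le]
      refine ⟨by omega, h1, h2, ?_⟩
      rw [← core_disc m h2, e]
      exact h3

theorem num_congr {P Q : ℤ → Prop} (h : ∀ d, Squarefree d → (P d ↔ Q d)) : num P = num Q := by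
  funext X
  unfold num
  refine congrArg card (filter_congr fun d _ => ?_)
  constructor
  · rintro ⟨h1, h2⟩
    exact ⟨h1, (h d h1).1 h2⟩
  · rintro ⟨h1, h2⟩
    exact ⟨h1, (h d h1).2 h2⟩

theorem numD_congr {P Q : ℤ → Prop} (h : ∀ d, Squarefree d → (P d ↔ Q d)) : numD P = numD Q := by
  funext X
  unfold numD
  refine congrArg card (filter_congr fun d _ => ?_)
  constructor
  · rintro ⟨h0, h1, h2⟩
    exact ⟨h0, h1, (h d h1).1 h2⟩
  · rintro ⟨h0, h1, h2⟩
    exact ⟨h0, h1, (h d h1).2 h2⟩

theorem good_iff {d : ℤ} (hd : Squarefree d) (hR : RootPlus d) :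
    Pool.Agent.N916.MO.G17 d ↔ Good d := Pool.Agent.H3.L17.g17_cri hd hR

/-- **The rank form of the conjecture for one fifth of all quadratic twists.** -/
theorem result :
    (∀ d : ℤ, Squarefree d → d ≠ 1 → RootPlus d → Good d →
      RankForm (-91 * d ^ 2) (-330 * d ^ 3) 0) ∧
    (∀ d : ℤ, d ≠ 0 → (RootPlus (-d) ↔ ¬ RootPlus d)) ∧
    Tendsto (fun X : ℕ => (num (fun d => RootPlus d ∧ Good d) X : ℝ) /
      (num (fun _ => True) X : ℝ)) atTop (nhds (c / 2)) ∧
    Tendsto (fun X : ℕ => (num (fun d => RootPlus d ∧ Good d) X : ℝ) /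
      (num RootPlus X : ℝ)) atTop (nhds c) ∧
    Tendsto (fun X : ℕ => (numD (fun d => RootPlus d ∧ Good d) X : ℝ) /
      (numD (fun _ => True) X : ℝ)) atTop (nhds (c / 2)) ∧
    Tendsto (fun X : ℕ => (numD (fun d => RootPlus d ∧ Good d) X : ℝ) /
      (numD RootPlus X : ℝ)) atTop (nhds c) ∧
    0.4194 < c ∧ c < 0.4195 := by
  have key : ∀ d : ℤ, Squarefree d → ((Pool.Agent.N919.BS.Rt17 d ∧ Pool.Agent.N916.MO.G17 d) ↔
      (RootPlus d ∧ Good d)) := fun d hd =>
    ⟨fun h => ⟨h.1, (good_iff hd h.1).1 h.2⟩, fun h => ⟨h.1, (good_iff hd h.1).2 h.2⟩⟩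
  have tS := Pool.Agent.N916.MO.dens17_sf
  have tD := Pool.Agent.N916.MO.dens17_fd
  have tR := Pool.Agent.N969.Den.dens17_root
  rw [← num_eq, ← num_eq, num_congr key] at tS
  rw [← numD_eq, ← numD_eq, numD_congr key] at tD
  rw [← numD_eq, ← numD_eq, numD_congr key] at tR
  have half : Tendsto (fun X : ℕ => (num RootPlus X : ℝ) / (num (fun _ => True) X : ℝ)) atTop
      (nhds (1 / 2)) := by
    have h := Pool.Agent.N919.BS.t_NS Pool.Agent.N919.BS.root17 (G := fun _ => True) (c := 1) (by
      intro s k r _ _ _ ε hε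
      refine ⟨0, fun Y _ => ?_⟩
      simp only [and_true, one_mul, sub_self, abs_zero]
      positivity)
    simp only [and_true] at h
    exact h
  have top : Tendsto (fun X : ℕ => (num (fun _ => True) X : ℝ)) atTop atTop :=
    Pool.Agent.N969.Den.NS_top
  refine ⟨?_, ?_, tS, Pool.Agent.N969.Den.ratio2 tS half top, ?_, ?_, ?_, ?_⟩
  · intro d hd h1 hR hG
    obtain ⟨F, h2, h3, h4, h5⟩ := Pool.Agent.H3.L17.bsd hd h1 hR hG
    refine ⟨⟨F, h2, h3, ?_⟩, h5⟩
    rw [h4, Nat.cast_zero]
  · intro d hd
    have h := Pool.Agent.N919.BS.root17.one (-d) (neg_ne_zero.2 hd)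
    rw [neg_neg] at h
    exact h
  · exact tD
  · exact tR
  · exact Pool.Agent.Y948.CQ.t_C2.2.2.2.1
  · exact Pool.Agent.Y948.CQ.t_C2.2.2.2.2

end Pool.Agent.Results.MP_696deb_nt.AllTwistsConductor17
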