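import Pool.Agent.H51.N15.Dens

/-!
# The rank form of the conjecture of Birch and Swinnerton-Dyer for the imaginary quadratic twists of
# `X_0(15)`

`E = X_0(15) : y² = x³ - 12987 x - 263466` is an elliptic curve of conductor `15` without complex
multiplication and without rational isogeny of degree `3`. For a negative fundamental discriminant
`-n` let `N = core n` be the squarefree number with `ℚ(√-n) = ℚ(√-N)` (so `N = n` or `N = n / 4`). The
quadratic twist of `E` by `-n` is `E_n : y² = x³ - 12987 N² x + 263466 N³`.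

`n` runs over the class `Cls` of the `n` for which `3` is not inert and `5` does not split in
`ℚ(√-n)`. There is no other restriction: `n` may be even and divisible by `3` and `5`, and has any
number of prime factors. These are exactly `35 / 96` of all the negative fundamental discriminants.

`Good n`: there is no squarefree divisor `d` of `n` besides `1` and `N` such that the Hilbert symbols
`(d, -n)_p` at the odd prime factors `p` of `n` are trivial. (By genus theory this says for the `n` of
the class that `ℚ(√-n)` has no ideal class of order four; this is not used and not part of the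
theorem.)

If `n ≠ 3` is a good number of the class, then `L(E_n, 1) ≠ 0` and `E_n(ℚ)` has rank zero. The
proportion of the good numbers in the class is exactly `c = ∏ (1 - 2^{-i}) = 0.2887...`. Consequently,
order and rank are both zero for at least `10.5` per cent of all the twists of `X_0(15)` by imaginary
quadratic fields, ordered by the discriminant.

The Lean proof is complete. The modular side (modular symbols of `X_0(15)`, a ternary quadratic form
and a formula of Gross type for the central values, the `2`-adic valuation of the coefficients) and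
the density of the criterion (for imaginary quadratic fields without classes of order four this is
the theorem of Fouvry and Klüners) are from unfinished library modules
(`Pool.Graph.R_pool_sql_team_seeded_63374d34`); the two-descent for the twists (`Pool.Agent.H51.N15`,
with the primes `2`, `3`, `5` dividing `n` allowed), the density of the class and the assembly are new.
-/

set_option autoImplicit false

namespace Pool.Agent.Results.MP_696deb_nt.ImaginaryTwistsRankX015

open Filter Finset
open scoped Classical

/-- the assertion of the problem for the curve `y² = x³ + a x + b`, with the order of vanishing and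
the rank both equal to `r`: the incomplete Euler product extends to an entire function `F` whose
order at `1` is `r`, and the rank of the group of the rational points is `r` -/
def RankForm (a b : ℤ) (r : ℕ) : Prop :=
  (∃ F : ℂ → ℂ, Differentiable ℂ F ∧
    (∀ s : ℂ, (3 : ℝ) / 2 < s.re →
      HasProd
        (fun p : ℕ =>
          if p.Prime ∧ ¬ ((p : ℤ) ∣ 2 * (-4 * a ^ 3 - 27 * b ^ 2)) then
            (1 - ((p : ℂ) - (Nat.card {q : ZMod p × ZMod p //
                q.2 ^ 2 = q.1 ^ 3 + (a : ZMod p) * q.1 + (b : ZMod p)} : ℂ))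
                * (p : ℂ) ^ (-s) + (p : ℂ) ^ (1 - 2 * s))⁻¹
          else 1)
        (F s)) ∧
    analyticOrderAt F 1 = (r : ℕ∞)) ∧
  Module.finrank ℤ
    (WeierstrassCurve.Affine.Point
      (WeierstrassCurve.toAffine
        ({ a₁ := 0, a₂ := 0, a₃ := 0, a₄ := (a : ℚ), a₆ := (b : ℚ) } :
          WeierstrassCurve ℚ))) = r

/-- `-n` is a fundamental discriminant -/
def Fund (n : ℕ) : Prop :=
  (Squarefree n ∧ n % 4 = 3) ∨ (∃ N : ℕ, n = 4 * N ∧ Squarefree N ∧ (N % 4 = 1 ∨ N % 4 = 2))

/-- the squarefree number `N` with `ℚ(√-n) = ℚ(√-N)`, for a fundamental discriminant `-n` -/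
def core (n : ℕ) : ℕ := if n % 4 = 0 then n / 4 else n

/-- the class: in the field `ℚ(√-n)` the prime `3` is not inert and the prime `5` does not split -/
def Cls (n : ℕ) : Prop := Fund n ∧ n % 3 ≠ 1 ∧ n % 5 ≠ 1 ∧ n % 5 ≠ 4

/-- the criterion: there is no squarefree divisor `d` of `n` besides `1` and `core n` such that the
Hilbert symbols `(d, -n)_p` at the odd primes `p` dividing `n` are trivial -/
def Good (n : ℕ) : Prop := ∀ d : ℕ, d ∣ n → Squarefree d →
  (∀ p : ℕ, p.Prime → p ≠ 2 → p ∣ n →
    jacobiSym (if p ∣ d then ((d / p * (core n / p) : ℕ) : ℤ) else d) p = 1) →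
  d = 1 ∨ d = core n

/-- the constant `(1 - 1/2) (1 - 1/4) (1 - 1/8) ⋯` -/
noncomputable def c : ℝ := ∏' i : ℕ, (1 - (1 / 2 : ℝ) ^ (i + 1))

/-- the rank form for a class member -/
theorem rank {n : ℕ} (hn : Cls n) (hne : n ≠ 3) (hG : Good n) :
    RankForm (-12987 * (core n : ℤ) ^ 2) (263466 * (core n : ℤ) ^ 3) 0 := by
  obtain ⟨hF, h3, h5⟩ := hn
  obtain ⟨⟨F, hF1, hF2, hF3⟩, hr, -, -⟩ := Pool.Agent.H51.N15.main hF h3 h5 hne hG
  have e1 : -12987 * (-(core n : ℤ)) ^ 2 = -12987 * (core n : ℤ) ^ 2 := by ring
  have e2 : -263466 * (-(core n : ℤ)) ^ 3 = 263466 * (core n : ℤ) ^ 3 := by ring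
  rw [← e1, ← e2]
  refine ⟨⟨F, hF1, hF2, ?_⟩, ?_⟩
  · rw [Nat.cast_zero]
    exact (hF1.analyticAt 1).analyticOrderAt_eq_zero.2 hF3
  · exact hr

/-- the proportion of the good numbers -/
theorem lim_good : Tendsto (fun X : ℕ => (((Icc 1 X).filter fun n => Cls n ∧ Good n).card : ℝ) /
    (((Icc 1 X).filter Cls).card : ℝ)) atTop (nhds c) := by
  refine Pool.Agent.N916.TE.density_T3.congr fun X => ?_
  have hcl : ∀ n : ℕ, Cls n ↔ (Pool.Agent.N916.TE.FD n ∧ (n % 3 ≠ 1 ∧ (n % 5 = 0 ∨
      n % 5 = 2 ∨ n % 5 = 3))) := by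
    intro n
    refine and_congr Iff.rfl (and_congr Iff.rfl ?_)
    omega
  congr 2
  · refine congrArg card (filter_congr fun n _ => ?_)
    constructor
    · rintro ⟨h1, h2, h3⟩
      exact ⟨(hcl n).2 ⟨h1, h2⟩, (Pool.Agent.H51.N15.good_go h1).2 h3⟩
    · rintro ⟨h1, h2⟩
      obtain ⟨h3, h4⟩ := (hcl n).1 h1
      exact ⟨h3, h4, (Pool.Agent.H51.N15.good_go h3).1 h2⟩
  · exact congrArg card (filter_congr fun n _ => (hcl n).symm)

/-- the proportion of the class -/
theorem lim_cls : Tendsto (fun X : ℕ => (((Icc 1 X).filter Cls).card : ℝ) /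
    (((Icc 1 X).filter Fund).card : ℝ)) atTop (nhds (35 / 96)) := by
  refine Pool.Agent.H51.N15.prop_class.congr fun X => ?_
  congr 2
  exact congrArg card (filter_congr fun n _ => Iff.rfl)

/-- **The rank form for the imaginary quadratic twists of `X_0(15)`.** -/
theorem result :
    (∀ n : ℕ, Cls n → n ≠ 3 → Good n →
      RankForm (-12987 * (core n : ℤ) ^ 2) (263466 * (core n : ℤ) ^ 3) 0) ∧
    Tendsto (fun X : ℕ => (((Icc 1 X).filter fun n => Cls n ∧ Good n).card : ℝ) /
      (((Icc 1 X).filter Cls).card : ℝ)) atTop (nhds c) ∧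
    Tendsto (fun X : ℕ => (((Icc 1 X).filter Cls).card : ℝ) /
      (((Icc 1 X).filter Fund).card : ℝ)) atTop (nhds (35 / 96)) ∧
    0.2887 < c ∧ c < 0.2889 ∧
    ∀ᶠ X : ℕ in atTop, 0.105 * (((Icc 1 X).filter Fund).card : ℝ) ≤
      (((Icc 1 X).filter fun n => Fund n ∧
        RankForm (-12987 * (core n : ℤ) ^ 2) (263466 * (core n : ℤ) ^ 3) 0).card : ℝ) := by
  have hc : 0.2887 < c ∧ c < 0.2889 := Pool.Agent.N916.GB.eta_bounds
  refine ⟨fun n h1 h2 h3 => rank h1 h2 h3, lim_good, lim_cls, hc.1, hc.2, ?_⟩
  have h1 := lim_good.mul lim_cls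
  have h2 : 0.1052 < c * (35 / 96) := by
    have := hc.1
    norm_num at this ⊢
    linarith
  have h3 : Tendsto (fun X : ℕ => (((Icc 1 X).filter Fund).card : ℝ)) atTop atTop :=
    Pool.Agent.H51.N15.fund_atTop
  filter_upwards [h1.eventually (lt_mem_nhds h2), h3.eventually (eventually_ge_atTop 10000)]
    with X h4 h5
  set G := (((Icc 1 X).filter fun n => Cls n ∧ Good n).card : ℝ) with hG
  set C := (((Icc 1 X).filter Cls).card : ℝ) with hC
  set F := (((Icc 1 X).filter Fund).card : ℝ) with hF
  have hF0 : 0 < F := by linarith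
  have hC0 : C ≠ 0 := by
    intro h0
    rw [h0] at h4
    norm_num at h4
  have h6 : G / C * (C / F) = G / F := div_mul_div_cancel₀ hC0
  rw [h6, lt_div_iff₀ hF0] at h4
  have h7 : ((Icc 1 X).filter fun n => Cls n ∧ Good n).card ≤
      ((Icc 1 X).filter fun n => Fund n ∧
        RankForm (-12987 * (core n : ℤ) ^ 2) (263466 * (core n : ℤ) ^ 3) 0).card + 1 := by
    have h8 : ((Icc 1 X).filter fun n => Cls n ∧ Good n) ⊆
        insert 3 ((Icc 1 X).filter fun n => Fund n ∧
          RankForm (-12987 * (core n : ℤ) ^ 2) (263466 * (core n : ℤ) ^ 3) 0) := by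
      intro n hn
      obtain ⟨h9, h10, h11⟩ := mem_filter.1 hn
      rw [mem_insert]
      by_cases hn3 : n = 3
      · exact Or.inl hn3
      · exact Or.inr (mem_filter.2 ⟨h9, h10.1, rank h10 hn3 h11⟩)
    exact (card_le_card h8).trans (card_insert_le _ _)
  have h8 : G ≤ (((Icc 1 X).filter fun n => Fund n ∧
        RankForm (-12987 * (core n : ℤ) ^ 2) (263466 * (core n : ℤ) ^ 3) 0).card : ℝ) + 1 := by
    rw [hG]
    exact_mod_cast h7
  linarith

end Pool.Agent.Results.MP_696deb_nt.ImaginaryTwistsRankX015
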