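import Pool.Agent.H3.X15.LFun
import Pool.Graph.R_pool_sql_team_seeded_620a6dc7.H757_X15.DN.Fin
import Pool.Graph.R_pool_sql_team_seeded_620a6dc7.H757_X15.DN.Den2
import Pool.Graph.R_pool_sql_team_seeded_620a6dc7.H735X.Fin
import Pool.Graph.R_pool_sql_team_seeded_620a6dc7.H735X.Law

/-!
# The rank form of the conjecture of Birch and Swinnerton-Dyer for a positive proportion of the
# quadratic twists of `X_0(15)`

`E = X_0(15) : y² + x y + y = x³ + x² - 10 x - 10` is an elliptic curve of conductor `15` without
complex multiplication and without rational isogenies of degree `3`. Its quadratic twist by `D` is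
`E_D : y² = x³ - 12987 D² x - 263466 D³`.

Let `D` be squarefree and congruent to `1` or `49` modulo `60`; there is no other restriction on the
prime factors of `D`, so that these `D` have the positive density `5 / (16 π²)` among all positive
integers. `D` is good if the only positive divisor `d` of `D` with `(d / p) = 1` for the primes `p`
dividing `D` but not `d`, `(-(D / d) / p) = 1` for the primes `p` dividing `d`, and `(d / 5) = 1`, is
`d = 1`. (The first two conditions say that the Hilbert symbols `(d, D)_p` at the prime factors of `D`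
are trivial.)

If `D ≠ 1` is good, then `L(E_D, s)` is entire with `L(E_D, 1) ≠ 0`, and `E_D(ℚ)` has rank zero. The
proportion of the good `D` is exactly `c = ∏_{i ≥ 1} (1 - 2^{-i}) = 0.2887...`. Moreover for different
squarefree numbers `M_1, ..., M_n` of the class the events that `M_i D`, without its square part,
is good are independent and each of them has probability `c`.

The Lean proof is complete (modular symbols of `X_0(15)`, a formula of Gross type for the central
values, its `2`-adic valuation, two-descent, and the distribution of the matrices of Rédei type).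
The modules `Pool.Graph.R_pool_sql_team_seeded_620a6dc7.H757_X15` and `H735X` are leftovers of an
earlier run by helper757, helper735 and many others; the two-descent (`Pool.Agent.H3.X15`) and the
assembly are new.
-/

set_option autoImplicit false

namespace Pool.Agent.Results.MP_696deb_nt.PositiveProportionX015

open Filter Finset
open scoped Classical

/-- the assertion of the problem for the curve `y² = x³ + a x + b`, with the order of vanishing and
the rank both equal to `r`: the incomplete Euler product extends to an entire function `F` whose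
order at `1` is `r`, and the rank of the group of the rational points is `r` -/
def RankForm (a b : ℤ) (r : ℕ) : Prop :=
  (∃ F : ℂ → ℂ, Differentiable ℂ F ∧
    (∀ s : ℂ, (3 : ℝ) / 2 < s.re →
      HasProd
        (fun p : ℕ =>
          if p.Prime ∧ ¬ ((p : ℤ) ∣ 2 * (-4 * a ^ 3 - 27 * b ^ 2)) then
            (1 - ((p : ℂ) - (Nat.card {q : ZMod p × ZMod p //
                q.2 ^ 2 = q.1 ^ 3 + (a : ZMod p) * q.1 + (b : ZMod p)} : ℂ))
                * (p : ℂ) ^ (-s) + (p : ℂ) ^ (1 - 2 * s))⁻¹
          else 1)
        (F s)) ∧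
    analyticOrderAt F 1 = (r : ℕ∞)) ∧
  Module.finrank ℤ
    (WeierstrassCurve.Affine.Point
      (WeierstrassCurve.toAffine
        ({ a₁ := 0, a₂ := 0, a₃ := 0, a₄ := (a : ℚ), a₆ := (b : ℚ) } :
          WeierstrassCurve ℚ))) = r

/-- the class of the discriminants: squarefree, `≡ 1` or `49` modulo `60` -/
def Cls (D : ℕ) : Prop := Squarefree D ∧ (D % 60 = 1 ∨ D % 60 = 49)

/-- the criterion -/
def Good (D : ℕ) : Prop := ∀ d : ℕ, d ∣ D →
  (∀ p : ℕ, p.Prime → p ∣ D → ¬ p ∣ d → jacobiSym d p = 1) →
  (∀ p : ℕ, p.Prime → p ∣ d → jacobiSym (-((D / d : ℕ) : ℤ)) p = 1) →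
  jacobiSym d 5 = 1 → d = 1

/-- the product `M D` without its square part, for squarefree `M` and `D` -/
def twist (M D : ℕ) : ℕ := M * D / Nat.gcd M D ^ 2

/-- the constant `(1 - 1/2) (1 - 1/4) (1 - 1/8) ⋯` -/
noncomputable def c : ℝ := ∏' i : ℕ, (1 - (1 / 2 : ℝ) ^ (i + 1))

/-- **The rank form of the conjecture for a positive proportion of the twists of `X_0(15)`.** -/
theorem result :
    (∀ D : ℕ, Cls D → D ≠ 1 → Good D →
      RankForm (-12987 * (D : ℤ) ^ 2) (-263466 * (D : ℤ) ^ 3) 0) ∧
    (∀ T V : Finset ℕ, (∀ M ∈ T, Cls M) → V ⊆ T →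
      Tendsto (fun X : ℕ => (((Icc 1 X).filter fun D => Cls D ∧
          ∀ M ∈ T, (Good (twist M D) ↔ M ∈ V)).card : ℝ) /
        (((Icc 1 X).filter fun D => Cls D).card : ℝ))
        atTop (nhds (c ^ V.card * (1 - c) ^ (T \ V).card))) ∧
    Tendsto (fun X : ℕ => (((Icc 1 X).filter fun D => Cls D).card : ℝ) / X) atTop
      (nhds (5 / (16 * Real.pi ^ 2))) ∧
    0.2887 < c ∧ c < 0.2888 := by
  refine ⟨?_, ?_, ?_, ?_, ?_⟩
  · rintro D ⟨hD, hF⟩ h1 hG
    obtain ⟨⟨F, hF1, hF2, hF3⟩, hr, -, -⟩ := Pool.Agent.H3.X15.main hD hF h1 hG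
    refine ⟨⟨F, hF1, hF2, ?_⟩, ?_⟩
    · rw [Nat.cast_zero]
      exact (hF1.analyticAt 1).analyticOrderAt_eq_zero.2 hF3
    · exact hr
  · intro T V hT hV
    refine (Pool.Agent.H735X.lawD Pool.Agent.H735X.t_JDQ T V hT hV).congr fun X => ?_
    congr 2
    · exact congrArg card (filter_congr fun D _ => Iff.rfl)
    · exact congrArg card (filter_congr fun D _ => Iff.rfl)
  · refine Pool.Agent.H757_X15.DD.t_DEN2.congr fun X => ?_
    congr 2
    exact congrArg card (filter_congr fun D _ => Iff.rfl)
  · exact Pool.Agent.H757_X15.DD.t_LA1.2.2.2.1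
  · exact Pool.Agent.H757_X15.DD.t_LA1.2.2.2.2

end Pool.Agent.Results.MP_696deb_nt.PositiveProportionX015
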