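import Pool.Agent.H1.CT.Top

/-!
# More than `X / (log X)^(7/12 + ε)` twists of analytic rank zero

Let `E : y² = x³ + a x + b` be an elliptic curve over `ℚ` without rational points of order two, with
newform `f` of level `N`, and suppose that the discriminant of `E` is `-N` times a square, so that
`ℚ(√-N) ⊆ ℚ(E[2])`, and that some odd multiple of `L(E, 1)` (by the number of the points modulo a good
prime) is not twice a period. This holds for `X_0(11)`. Ono (Crelle 2001) proved for such curves that at
least `X / (log X)^(2/3)` (up to a constant) of the twists by `D`, `|D| ≤ X`, have `L(E^D, 1) ≠ 0`: the `D`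
which are products of the primes `q` for which the number of the points of `E` over `𝔽_q` is odd; these
primes have density `1/3`. Here the exponent `2/3` becomes `7/12 + ε`.

The twists counted here are those by products `S` of primes which split in `ℚ(√-N)`, where `k ~ (log log X)/12`
primes have an even number of points (density `1/6`), and the others (density `1/3`) an odd number. For
these twists `L(E^D, 1)` is divisible by a high power of two, and no congruence modulo two shows that it
is not zero. By the theorem on the twists by split primes (`MP_696deb_nt.SplitPrimeTwists`,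
`Pool/Agent/H1/SP`), if `q_i, q_i'` (`i ≤ j`) are primes `≡ 1` modulo `4` with an odd number of points, then
among the `2^j` choices of one element in every pair at least `2^(j-k)` give a nonvanishing twist,
provided that the symbols `(p / q_i q_i')` of the `k` even primes `p` are independent. The main steps of the
count (`Pool/Agent/H1/CT`) are:

* the density of the classes of primes in the intervals `(y, (1 + η) y]`, by Chebotarev's theorem for the
  field `ℚ(E[2], i)` (`Gal`, `Act`, `Cls`, `Dens`);
* by the large sieve, the product of every nonempty subset of the even primes correlates with no interval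
  of primes `q`, outside of a set of exceptional products with a convergent small sum (`LS`, `Exc`);
* for the other sets of even primes, almost all choices of the `q_i, q_i'` have independent symbols; so at
  least `2^(-k-1)` of all choices of one prime in each of `j ~ (log log X)/6` intervals give a nonvanishing
  twist (`Cube`, `Avg`, `Trans`);
* the sum of the `2^(-k) / D` over all such `D` is `(log X)^(1/12 + 1/6 + 1/6 - ε)` (`Esym`, `Cnt`, `Asy`).
-/

set_option autoImplicit false

open UpperHalfPlane MatrixGroups CongruenceSubgroup Filter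

namespace Pool.Agent.Results.MP_696deb_nt.TwistCount

open Pool.Agent.W263.BSD (pointCount GoodPrime IsLSeries)
open Pool.Agent.Y18.BSD (IsFormOf RankZero bv PG)

/-- `L(E, 1) ≠ 0` for `E : y² = x³ + a x + b`: there is an entire function with the Euler product
`∏_{p ∤ 2Δ} (1 - a_p p^{-s} + p^{1-2s})⁻¹` for `Re s > 3/2`, and it does not vanish at `1` -/
def AnalyticRankZero (a b : ℤ) : Prop := ∃ F : ℂ → ℂ, IsLSeries a b F ∧ F 1 ≠ 0

/-- the number of the points of `E` modulo some good prime `p` (with the point at infinity) times
`bv f 0`, which is `L(f, 1)` up to sign, is not twice a period of `f` -/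
def OddPeriod (a b : ℤ) {N : ℕ} [NeZero N] (f : CuspForm (Gamma0 N : Subgroup (GL (Fin 2) ℝ)) 2) : Prop :=
  ∃ p : ℕ, GoodPrime a b p ∧ ∀ ω ∈ PG f, ((pointCount a b p : ℂ) + 1) * bv f 0 ≠ 2 * ω

/-- `E : y² = x³ + a x + b` has no rational point of order two, the newform `f` of level `N`, the
discriminant `-N` times a square, where `N` is not a square, and an odd central value -/
structure Admissible (a b : ℤ) (N : ℕ) [NeZero N]
    (f : CuspForm (Gamma0 N : Subgroup (GL (Fin 2) ℝ)) 2) : Prop where
  noRoot : ∀ x : ℚ, x ^ 3 + a * x + b ≠ 0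
  nonsing : 4 * a ^ 3 + 27 * b ^ 2 ≠ 0
  notSquare : ¬ IsSquare N
  disc : ∃ m : ℤ, 4 * a ^ 3 + 27 * b ^ 2 = N * m ^ 2
  form : IsFormOf a b N f
  odd : OddPeriod a b f

/-- the number of the squarefree `D ≡ 1` modulo `4` with `|D| ≤ X` such that the twist
`y² = x³ + a D² x + b D³` of `E` by `ℚ(√D)` has analytic rank zero -/
noncomputable def twists (a b : ℤ) (X : ℕ) : ℕ :=
  Set.ncard {D : ℤ | |D| ≤ X ∧ Squarefree D ∧ D % 4 = 1 ∧ AnalyticRankZero (a * D ^ 2) (b * D ^ 3)}

/-- **Theorem.** -/
theorem result :
    (∀ (a b : ℤ) (N : ℕ) [NeZero N] (f : CuspForm (Gamma0 N : Subgroup (GL (Fin 2) ℝ)) 2),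
      Admissible a b N f → ∀ ε : ℝ, 0 < ε →
        ∀ᶠ X : ℕ in atTop, (X : ℝ) / Real.log X ^ (7 / 12 + ε) ≤ twists a b X) ∧
    ∃ f : CuspForm (Gamma0 11 : Subgroup (GL (Fin 2) ℝ)) 2,
      Admissible (-13392) (-1080432) 11 f := by
  classical
  constructor
  · intro a b N _ f h ε hε
    obtain ⟨m, hm⟩ := h.disc
    have hset : ∀ X : ℕ, (Finset.Icc (-(X : ℤ)) X).filter (fun D => Squarefree D ∧ D % 4 = 1 ∧
        RankZero (a * D ^ 2) (b * D ^ 3)) = {D : ℤ | |D| ≤ X ∧ Squarefree D ∧ D % 4 = 1 ∧
        AnalyticRankZero (a * D ^ 2) (b * D ^ 3)} := by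
      intro X
      ext D
      rw [Finset.coe_filter, Set.mem_ofPred_eq, Finset.mem_Icc, Set.mem_ofPred_eq, abs_le]
      rfl
    have h1 := Pool.Agent.H1.CT.twist_count1 (f := f) (Pool.Agent.H1.CT.irr_of_noRoot h.noRoot)
      h.nonsing h.notSquare m (by linarith) h.form h.odd (min ε 1) (lt_min hε one_pos)
      (min_le_right _ _)
    have hlog : Tendsto (fun X : ℕ => Real.log X) atTop atTop :=
      Real.tendsto_log_atTop.comp tendsto_natCast_atTop_atTop
    filter_upwards [h1, hlog.eventually_ge_atTop 1] with X hX hX1
    have h2 : twists a b X = ((Finset.Icc (-(X : ℤ)) X).filter (fun D => Squarefree D ∧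
        D % 4 = 1 ∧ RankZero (a * D ^ 2) (b * D ^ 3))).card := by
      unfold twists
      rw [← hset X, Set.ncard_coe_finset]
    rw [h2]
    refine le_trans ?_ hX
    refine div_le_div_of_nonneg_left (Nat.cast_nonneg X) (by positivity) ?_
    exact Real.rpow_le_rpow_of_exponent_le hX1 (by linarith [min_le_left ε 1])
  · refine ⟨_, ?_, by norm_num, ?_, ⟨1411344, by norm_num⟩, Pool.Agent.Y18.BSD.Eleven.isFormOf,
      Pool.Agent.H1.SP.oddPeriod11⟩
    · intro x hx
      exact Pool.Agent.H1.CT.noRoot11 x (by push_cast at hx ⊢; linarith)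
    · rintro ⟨r, hr⟩
      have : r ≤ 3 := by nlinarith
      interval_cases r <;> omega

end Pool.Agent.Results.MP_696deb_nt.TwistCount
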